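import Pool.Agent.helper54.XP.SpecG

/-!
# Project xp: module IMG (images of discs, invisibility of `r`)
-/

set_option autoImplicit false

open Complex Metric Set Filter Topology MeasureTheory XP
open V3S (UF)

noncomputable section

namespace XPG

theorem IMG (hAFF : XPL.AFF_stmt) (hBAD : XPL.BAD_stmt) (hBA1 : XPL.BA1_stmt) : IMG_stmt := by
  intro n C C' C'' D h ρ hρ ε hε
  obtain ⟨A, hA, hgood⟩ := h.good
  obtain ⟨-, haff⟩ := hAFF n C D h.hl h.st
  have h1 := haff ρ hρ 1 one_pos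
  have h2 : ∀ᶠ m in UF, max (2 * C * ρ) (4 * C ^ 2 / ε) ≤ A m :=
    V3S.UF_le (hA.eventually_ge_atTop _)
  filter_upwards [h1, h2] with m hm hAm j hj x hx
  have hG := hgood m
  obtain ⟨hsg, hsgR, -, -, -, -, hdiff, -, -, -, -, -, hF0, -, hzp, -⟩ := hBA1 n C (A m) (D m) hG
  obtain ⟨hbad, -⟩ := hBAD n C (A m) (D m) hG
  obtain ⟨-, -, hAR, -⟩ := hbad j hj
  have hC1 := hG.C1
  have hR0 := hG.Rpos 0
  have hRj := hG.Rpos (j : ZMod (D m).k)
  have hjK : j ≤ (D m).K := by rw [h.hK m]; exact hj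
  have hder : ∀ y ∈ ball (0 : ℂ) ρ, ‖deriv ((D m).F j) y‖ ≤ 2 * ‖(D m).A j‖ := by
    intro y hy
    have h3 := hm j hjK y hy
    have h4 : deriv ((D m).F j) y = (deriv ((D m).F j) y - (D m).A j) + (D m).A j := by ring
    rw [h4]
    refine (norm_add_le _ _).trans ?_
    linarith
  have hxn : ‖x‖ < ρ := by simpa using hx
  have hmv : ‖(D m).F j x - (D m).p (j : ZMod (D m).k)‖ ≤ 2 * ‖(D m).A j‖ * ‖x‖ := by
    rw [← hF0 j]
    have h3 := (convex_ball (0 : ℂ) ρ).norm_image_sub_le_of_norm_deriv_le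
      (f := (D m).F j) (fun y _ => (hdiff j) y) hder (mem_ball_self hρ) hx
    rwa [sub_zero] at h3
  have hc : ‖(D m).F j x - (D m).p (j : ZMod (D m).k)‖ * (D m).R 0 ≤
      2 * C * (D m).R (j : ZMod (D m).k) * ‖x‖ := by
    calc ‖(D m).F j x - (D m).p (j : ZMod (D m).k)‖ * (D m).R 0
        ≤ 2 * ‖(D m).A j‖ * ‖x‖ * (D m).R 0 := by gcongr
      _ = 2 * (‖(D m).A j‖ * (D m).R 0) * ‖x‖ := by ring
      _ ≤ 2 * (C * (D m).R (j : ZMod (D m).k)) * ‖x‖ := by gcongr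
      _ = 2 * C * (D m).R (j : ZMod (D m).k) * ‖x‖ := by ring
  have hAm1 : 2 * C * ρ ≤ A m := (le_max_left _ _).trans hAm
  have hAm2 : 4 * C ^ 2 / ε ≤ A m := (le_max_right _ _).trans hAm
  have hApos : 0 < A m := lt_of_lt_of_le one_pos hG.A1
  have hzz : (D m).zz ((D m).F j x) - (D m).b (j : ZMod (D m).k) =
      (D m).sg * ((D m).F j x - (D m).p (j : ZMod (D m).k)) := by
    rw [← hzp (j : ZMod (D m).k)]
    unfold Dat.zz
    ring
  have hball : (D m).zz ((D m).F j x) ∈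
      ball ((D m).b (j : ZMod (D m).k)) (A m * (D m).R (j : ZMod (D m).k)) := by
    rw [mem_ball, dist_eq_norm, hzz, norm_mul, hsgR, mul_comm]
    refine lt_of_le_of_lt hc ?_
    calc 2 * C * (D m).R (j : ZMod (D m).k) * ‖x‖
        < 2 * C * (D m).R (j : ZMod (D m).k) * ρ := by
          refine mul_lt_mul_of_pos_left hxn ?_
          positivity
      _ = 2 * C * ρ * (D m).R (j : ZMod (D m).k) := by ring
      _ ≤ A m * (D m).R (j : ZMod (D m).k) := by gcongr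
  obtain ⟨hP, hr, hrad⟩ := hG.invi (j : ZMod (D m).k) _ hball
  refine ⟨hrad, hP, hc, ?_⟩
  rw [norm_mul, norm_mul, norm_pow, norm_pow, hsgR]
  set rr := ‖(D m).r ((D m).zz ((D m).F j x))‖ with hrr
  have hrr0 : 0 ≤ rr := norm_nonneg _
  have h5 : ‖deriv ((D m).F j) x‖ * (D m).R 0 ≤ 2 * C * (D m).R (j : ZMod (D m).k) := by
    calc ‖deriv ((D m).F j) x‖ * (D m).R 0 ≤ 2 * ‖(D m).A j‖ * (D m).R 0 := by
          gcongr
          exact hder x hx
      _ = 2 * (‖(D m).A j‖ * (D m).R 0) := by ring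
      _ ≤ 2 * (C * (D m).R (j : ZMod (D m).k)) := by gcongr
      _ = 2 * C * (D m).R (j : ZMod (D m).k) := by ring
  have h6 : (D m).R (j : ZMod (D m).k) ^ 2 * rr ≤ 1 / A m := by
    rw [le_div_iff₀ hApos, mul_comm]
    exact hr
  have h7 : 4 * C ^ 2 * (1 / A m) ≤ ε := by
    rw [mul_one_div, div_le_iff₀ hApos]
    rw [div_le_iff₀ hε] at hAm2
    linarith
  calc ‖deriv ((D m).F j) x‖ ^ 2 * ((D m).R 0 ^ 2 * rr)
      = (‖deriv ((D m).F j) x‖ * (D m).R 0) ^ 2 * rr := by ring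
    _ ≤ (2 * C * (D m).R (j : ZMod (D m).k)) ^ 2 * rr := by
        gcongr
    _ = 4 * C ^ 2 * ((D m).R (j : ZMod (D m).k) ^ 2 * rr) := by ring
    _ ≤ 4 * C ^ 2 * (1 / A m) := by gcongr
    _ ≤ ε := h7

end XPG
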